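import Mathlib

set_option linter.unusedSimpArgs false

namespace Pool.Agent.H.MP_d87c46_gt

structure DR (R : Type) [CommRing R] where
  d : Fin 4 → R → R
  add : ∀ i f g, d i (f + g) = d i f + d i g
  mul : ∀ i f g, d i (f * g) = d i f * g + f * d i g
  comm : ∀ i j f, d i (d j f) = d j (d i f)
  two : ∀ f : R, 2 * f = 0 → f = 0
  three : ∀ f : R, 3 * f = 0 → f = 0
  sq : ∀ f g : R, f * f + g * g = 0 → f = 0

namespace DR

variable {R : Type} [CommRing R] (D : DR R)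

lemma zero (i : Fin 4) : D.d i 0 = 0 := by
  have := D.add i 0 0
  rw [add_zero] at this
  linear_combination -this

lemma one (i : Fin 4) : D.d i 1 = 0 := by
  have := D.mul i 1 1
  rw [mul_one] at this
  linear_combination -this

lemma neg (i : Fin 4) (f : R) : D.d i (-f) = -D.d i f := by
  have := D.add i f (-f)
  rw [add_neg_cancel, D.zero] at this
  linear_combination -this

lemma sub (i : Fin 4) (f g : R) : D.d i (f - g) = D.d i f - D.d i g := by
  rw [sub_eq_add_neg, D.add, D.neg]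
  ring

lemma n2 (i : Fin 4) : D.d i 2 = 0 := by
  rw [← one_add_one_eq_two, D.add, D.one, add_zero]

lemma n3 (i : Fin 4) : D.d i 3 = 0 := by
  rw [show (3 : R) = 2 + 1 by norm_num, D.add, D.one, D.n2, add_zero]

lemma n6 (i : Fin 4) : D.d i 6 = 0 := by
  rw [show (6 : R) = 3 + 3 by norm_num, D.add, D.n3, add_zero]

include D in
lemma six (f : R) (h : 6 * f = 0) : f = 0 := by
  apply D.two
  apply D.three
  linear_combination h

lemma c10 (f : R) : D.d 1 (D.d 0 f) = D.d 0 (D.d 1 f) := D.comm _ _ _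
lemma c20 (f : R) : D.d 2 (D.d 0 f) = D.d 0 (D.d 2 f) := D.comm _ _ _
lemma c30 (f : R) : D.d 3 (D.d 0 f) = D.d 0 (D.d 3 f) := D.comm _ _ _
lemma c21 (f : R) : D.d 2 (D.d 1 f) = D.d 1 (D.d 2 f) := D.comm _ _ _
lemma c31 (f : R) : D.d 3 (D.d 1 f) = D.d 1 (D.d 3 f) := D.comm _ _ _
lemma c32 (f : R) : D.d 3 (D.d 2 f) = D.d 2 (D.d 3 f) := D.comm _ _ _

structure HH (H x y : R) : Prop where
  h0 : D.d 0 H = 0
  h1 : D.d 1 H = 3 * (x * x) - 3 * (y * y)
  h2 : D.d 2 H = -(6 * (x * y))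
  h3 : D.d 3 H = 0
  x0 : D.d 0 x = 0
  x1 : D.d 1 x = 1
  x2 : D.d 2 x = 0
  x3 : D.d 3 x = 0
  y0 : D.d 0 y = 0
  y1 : D.d 1 y = 0
  y2 : D.d 2 y = 1
  y3 : D.d 3 y = 0

lemma dz {f : R} (h : f = 0) (i : Fin 4) : D.d i f = 0 := by rw [h, D.zero]

theorem ckf {H x y P A B Q m : R} (hH : D.HH H x y)
    (vv : D.d 3 P = 0) (xv : D.d 3 A + D.d 1 P = 0) (yv : D.d 3 B + D.d 2 P = 0)
    (xx : 2 * D.d 1 A - m = 0) (yy : 2 * D.d 2 B - m = 0) (xy : D.d 2 A + D.d 1 B = 0)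
    (uv : D.d 0 P + D.d 3 Q - m = 0)
    (xu : D.d 0 A + D.d 1 Q + H * D.d 1 P = 0) (yu : D.d 0 B + D.d 2 Q + H * D.d 2 P = 0)
    (uu : A * D.d 1 H + B * D.d 2 H + 2 * (H * D.d 0 P) + 2 * D.d 0 Q - m * H = 0)
    (nl : A * A + B * B + 2 * (P * Q) + H * (P * P) = 0) : P = 0 ∧ A = 0 ∧ B = 0 := by
  obtain ⟨h0, h1, h2, h3, x0, x1, x2, x3, y0, y1, y2, y3⟩ := hH
  rw [h1, h2] at uu
  have mx : D.d 1 m - 2 * D.d 0 (D.d 1 P) = 0 := by
    have e1 := D.dz xu 3
    have e2 := D.dz uv 1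
    have e3 := D.dz xv 0
    have e4 := D.dz vv 1
    simp only [D.add, D.sub, D.mul, D.c10, D.c20, D.c30, D.c21, D.c31, D.c32, h3] at e1 e2 e3 e4
    linear_combination e1 - e2 - e3 - H * e4
  have my : D.d 2 m - 2 * D.d 0 (D.d 2 P) = 0 := by
    have e1 := D.dz yu 3
    have e2 := D.dz uv 2
    have e3 := D.dz yv 0
    have e4 := D.dz vv 2
    simp only [D.add, D.sub, D.mul, D.c10, D.c20, D.c30, D.c21, D.c31, D.c32, h3] at e1 e2 e3 e4
    linear_combination e1 - e2 - e3 - H * e4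
  have mv : D.d 3 m + 2 * D.d 1 (D.d 1 P) = 0 := by
    have e1 := D.dz xx 3
    have e2 := D.dz xv 1
    simp only [D.add, D.sub, D.mul, D.c10, D.c20, D.c30, D.c21, D.c31, D.c32, D.n2] at e1 e2
    linear_combination 2 * e2 - e1
  have mv' : D.d 3 m + 2 * D.d 2 (D.d 2 P) = 0 := by
    have e1 := D.dz yy 3
    have e2 := D.dz yv 2
    simp only [D.add, D.sub, D.mul, D.c10, D.c20, D.c30, D.c21, D.c31, D.c32, D.n2] at e1 e2
    linear_combination 2 * e2 - e1
  have pyy : D.d 2 (D.d 2 P) = D.d 1 (D.d 1 P) := by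
    have : D.d 2 (D.d 2 P) - D.d 1 (D.d 1 P) = 0 := D.two _ (by linear_combination mv' - mv)
    linear_combination this
  have pxy : D.d 1 (D.d 2 P) = 0 := by
    have e1 := D.dz xy 3
    have e2 := D.dz xv 2
    have e3 := D.dz yv 1
    simp only [D.add, D.sub, D.mul, D.c10, D.c20, D.c30, D.c21, D.c31, D.c32] at e1 e2 e3
    exact D.two _ (by linear_combination e2 + e3 - e1)
  have pxxx : D.d 1 (D.d 1 (D.d 1 P)) = 0 := by
    rw [← pyy, D.comm 1 2, pxy, D.zero]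
  have pxxy : D.d 1 (D.d 1 (D.d 2 P)) = 0 := by
    rw [pxy, D.zero]
  have k0 : 2 * D.d 0 m - 2 * D.d 0 (D.d 0 P) + 2 * (D.d 1 (D.d 1 P) * H)
      - D.d 1 P * (3 * (x * x) - 3 * (y * y)) + D.d 2 P * (6 * (x * y)) = 0 := by
    have e1 := D.dz uu 3
    have e2 := D.dz uv 0
    have e3 := D.dz vv 0
    simp only [D.add, D.sub, D.mul, D.neg, D.c10, D.c20, D.c30, D.c21, D.c31, D.c32, D.n2, D.n3,
      D.n6, h3, x3, y3] at e1 e2 e3
    linear_combination e1 - 2 * e2 - 2 * H * e3 + H * mv - (3 * (x * x) - 3 * (y * y)) * xv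
      + (6 * (x * y)) * yv
  have k1 : 2 * D.d 0 (D.d 0 (D.d 1 P)) + D.d 1 (D.d 1 P) * (3 * (x * x) - 3 * (y * y))
      - D.d 1 P * (6 * x) + D.d 2 P * (6 * y) = 0 := by
    have e1 := D.dz k0 1
    have e2 := D.dz mx 0
    simp only [D.add, D.sub, D.mul, D.neg, D.c10, D.c20, D.c30, D.c21, D.c31, D.c32, D.n2, D.n3,
      D.n6, h1, x1, y1, pxxx, pxy] at e1 e2
    linear_combination e1 - 2 * e2
  have k2 : 2 * D.d 0 (D.d 0 (D.d 2 P)) - D.d 1 (D.d 1 P) * (6 * (x * y))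
      + D.d 1 P * (6 * y) + D.d 2 P * (6 * x) = 0 := by
    have e1 := D.dz k0 2
    have e2 := D.dz my 0
    simp only [D.add, D.sub, D.mul, D.neg, D.c10, D.c20, D.c30, D.c21, D.c31, D.c32, D.n2, D.n3,
      D.n6, h2, x2, y2, pxxy, pxy, pyy, D.zero] at e1 e2
    linear_combination e1 - 2 * e2
  have py : D.d 2 P = 0 := by
    have e1 := D.dz k1 2
    simp only [D.add, D.sub, D.mul, D.neg, D.c10, D.c20, D.c30, D.c21, D.c31, D.c32, D.n2, D.n3,
      D.n6, h2, x2, y2, pxxy, pxy, pyy, D.zero] at e1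
    exact D.six _ (by linear_combination e1)
  have px : D.d 1 P = 0 := by
    have e1 := D.dz k1 1
    have e2 := D.dz k2 2
    simp only [D.add, D.sub, D.mul, D.neg, D.c10, D.c20, D.c30, D.c21, D.c31, D.c32, D.n2, D.n3,
      D.n6, x1, y1, x2, y2, pxxx, pxxy, pxy, pyy, D.zero] at e1 e2
    exact D.two _ (D.six _ (by linear_combination e2 - e1))
  rw [px, D.zero] at mx
  have axx : D.d 1 (D.d 1 A) = 0 := by
    have e1 := D.dz xx 1
    simp only [D.add, D.sub, D.mul, D.n2] at e1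
    exact D.two _ (by linear_combination e1 + mx)
  have bxx : D.d 1 (D.d 1 B) = 0 := by
    rw [py, D.zero] at my
    have e1 := D.dz xx 2
    have e2 := D.dz xy 1
    simp only [D.add, D.sub, D.mul, D.n2, D.c21] at e1 e2
    exact D.two _ (by linear_combination 2 * e2 - e1 - my)
  have qxxx : D.d 1 (D.d 1 (D.d 1 Q)) = 0 := by
    have e1 := D.dz (D.dz xu 1) 1
    simp only [D.add, D.sub, D.mul, D.c10, px, axx, D.zero, mul_zero] at e1
    linear_combination e1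
  have p0 : P = 0 := by
    have e1 := D.dz (D.dz (D.dz nl 1) 1) 1
    simp only [D.add, D.sub, D.mul, D.n2, D.n3, h1, x1, y1, px, axx, bxx, qxxx, D.zero, D.one,
      mul_zero, zero_mul, add_zero, zero_add] at e1
    exact D.sq _ 0 (D.six _ (by linear_combination e1))
  subst p0
  exact ⟨rfl, D.sq A B (by linear_combination nl), D.sq B A (by linear_combination nl)⟩

def gm (H : R) : Matrix (Fin 4) (Fin 4) R := !![H, 0, 0, 1; 0, 1, 0, 0; 0, 0, 1, 0; 1, 0, 0, 0]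

def gi (H : R) : Matrix (Fin 4) (Fin 4) R := !![0, 0, 0, 1; 0, 1, 0, 0; 0, 0, 1, 0; 1, 0, 0, -H]

lemma gm_gi (H : R) : gm H * gi H = 1 := by
  ext i j
  fin_cases i <;> fin_cases j <;> simp [gm, gi, Matrix.mul_apply, Fin.sum_univ_four]

def M (T X Y Z : R) (a b : Fin 4) : R :=
  X * X * (D.d a T * D.d b T) + D.d a T * D.d b Z + D.d a Z * D.d b T + D.d a X * D.d b X
    + D.d a Y * D.d b Y

def K (P A B Q f : R) : R := P * D.d 0 f + A * D.d 1 f + B * D.d 2 f + Q * D.d 3 f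

lemma lie {T X Y Z P A B Q : R} (kT : D.K P A B Q T = 0) (kX : D.K P A B Q X = 0)
    (kY : D.K P A B Q Y = 0) (kZ : D.K P A B Q Z - 1 = 0) (a b : Fin 4) :
    D.K P A B Q (D.M T X Y Z a b)
      + (D.M T X Y Z 0 b * D.d a P + D.M T X Y Z 1 b * D.d a A + D.M T X Y Z 2 b * D.d a B
        + D.M T X Y Z 3 b * D.d a Q)
      + (D.M T X Y Z a 0 * D.d b P + D.M T X Y Z a 1 * D.d b A + D.M T X Y Z a 2 * D.d b B
        + D.M T X Y Z a 3 * D.d b Q) = 0 := by
  have t1 := D.dz kT a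
  have t2 := D.dz kT b
  have x1 := D.dz kX a
  have x2 := D.dz kX b
  have y1 := D.dz kY a
  have y2 := D.dz kY b
  have z1 := D.dz kZ a
  have z2 := D.dz kZ b
  simp only [K, M, D.add, D.sub, D.mul, D.one] at *
  rw [D.comm a 0, D.comm a 1, D.comm a 2, D.comm a 3] at t1 x1 y1 z1
  rw [D.comm b 0, D.comm b 1, D.comm b 2, D.comm b 3] at t2 x2 y2 z2
  linear_combination (2 * X * (D.d a T * D.d b T)) * kX + (X * X * D.d b T + D.d b Z) * t1
    + (X * X * D.d a T + D.d a Z) * t2 + D.d b T * z1 + D.d a T * z2 + D.d b X * x1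
    + D.d a X * x2 + D.d b Y * y1 + D.d a Y * y2

lemma kill {T X Y Z H l n : R} (hn : l * n = 1) (hM : ∀ a b, D.M T X Y Z a b = l * gm H a b) :
    D.K (n * D.d 3 T) (n * D.d 1 T) (n * D.d 2 T) (n * (D.d 0 T - H * D.d 3 T)) T = 0 ∧
    D.K (n * D.d 3 T) (n * D.d 1 T) (n * D.d 2 T) (n * (D.d 0 T - H * D.d 3 T)) X = 0 ∧
    D.K (n * D.d 3 T) (n * D.d 1 T) (n * D.d 2 T) (n * (D.d 0 T - H * D.d 3 T)) Y = 0 ∧
    D.K (n * D.d 3 T) (n * D.d 1 T) (n * D.d 2 T) (n * (D.d 0 T - H * D.d 3 T)) Z - 1 = 0 := by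
  let J : Matrix (Fin 4) (Fin 4) R := Matrix.of fun i a => D.d a (![T, X, Y, Z] i)
  have e1 : J.transpose * gm (X * X) * J = l • gm H := by
    ext a b
    rw [Matrix.smul_apply, smul_eq_mul, ← hM]
    simp [J, gm, M, Matrix.mul_apply, Fin.sum_univ_four]
    ring
  have e2 : (J.transpose * gm (X * X)) * (J * (n • gi H)) = 1 := by
    rw [← Matrix.mul_assoc, e1, Matrix.smul_mul, Matrix.mul_smul, gm_gi, smul_smul, hn, one_smul]
  have e3 := mul_eq_one_comm.1 e2
  have f0 := congrFun (congrFun e3 0) 3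
  have f1 := congrFun (congrFun e3 1) 3
  have f2 := congrFun (congrFun e3 2) 3
  have f3 := congrFun (congrFun e3 3) 3
  simp [J, gm, gi, Matrix.mul_apply, Fin.sum_univ_four] at f0 f1 f2 f3
  simp only [K]
  refine ⟨?_, ?_, ?_, ?_⟩
  · linear_combination f0
  · linear_combination f1
  · linear_combination f2
  · linear_combination f3

theorem noiso {T X Y Z H x y l n : R} (hH : D.HH H x y) (hn : l * n = 1)
    (hM : ∀ a b, D.M T X Y Z a b = l * gm H a b) : (1 : R) = 0 := by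
  obtain ⟨kT, kX, kY, kZ⟩ := D.kill hn hM
  have cn : ∀ f : R, l * f = 0 → f = 0 := fun f h => by linear_combination n * h - f * hn
  have cl : ∀ f : R, n * f = 0 → f = 0 := fun f h => by linear_combination l * h - f * hn
  have nl : (n * D.d 1 T) * (n * D.d 1 T) + (n * D.d 2 T) * (n * D.d 2 T)
      + 2 * ((n * D.d 3 T) * (n * (D.d 0 T - H * D.d 3 T)))
      + H * ((n * D.d 3 T) * (n * D.d 3 T)) = 0 := by
    simp only [K] at kT
    linear_combination n * kT
  generalize hP : n * D.d 3 T = P at kT kX kY kZ nl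
  generalize hA : n * D.d 1 T = A at kT kX kY kZ nl
  generalize hB : n * D.d 2 T = B at kT kX kY kZ nl
  generalize hQ : n * (D.d 0 T - H * D.d 3 T) = Q at kT kX kY kZ nl
  have L := D.lie kT kX kY kZ
  simp only [hM] at L
  have L33 := L 3 3
  have L13 := L 1 3
  have L23 := L 2 3
  have L11 := L 1 1
  have L22 := L 2 2
  have L12 := L 1 2
  have L03 := L 0 3
  have L01 := L 0 1
  have L02 := L 0 2
  have L00 := L 0 0
  simp [gm, K, D.zero, D.mul, hH.h0, hH.h3] at L33 L13 L23 L11 L22 L12 L03 L01 L02 L00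
  have vv : D.d 3 P = 0 := cn _ (D.two _ (by linear_combination L33))
  obtain ⟨p0, a0, b0⟩ := D.ckf (P := P) (A := A) (B := B) (Q := Q) (m := -(n * D.K P A B Q l)) hH vv
    (cn _ (by linear_combination L13)) (cn _ (by linear_combination L23))
    (cn _ (by simp only [K]; linear_combination L11 + (D.K P A B Q l) * hn - D.K P A B Q l * hn
      + (P * D.d 0 l + A * D.d 1 l + B * D.d 2 l + Q * D.d 3 l) * hn))
    (cn _ (by simp only [K]; linear_combination L22
      + (P * D.d 0 l + A * D.d 1 l + B * D.d 2 l + Q * D.d 3 l) * hn))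
    (cn _ (by linear_combination L12))
    (cn _ (by simp only [K]; linear_combination L03 - l * H * vv
      + (P * D.d 0 l + A * D.d 1 l + B * D.d 2 l + Q * D.d 3 l) * hn))
    (cn _ (by linear_combination L01)) (cn _ (by linear_combination L02))
    (cn _ (by simp only [K]; linear_combination L00
      + H * (P * D.d 0 l + A * D.d 1 l + B * D.d 2 l + Q * D.d 3 l) * hn)) nl
  subst p0 a0 b0
  have tv := cl _ hP
  have tx := cl _ hA
  have ty := cl _ hB
  simp only [K, zero_mul, zero_add] at kX kY kZ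
  have xv : D.d 3 X = 0 := by linear_combination D.d 3 Z * kX - D.d 3 X * kZ
  have yv : D.d 3 Y = 0 := by linear_combination D.d 3 Z * kY - D.d 3 Y * kZ
  have m03 := hM 0 3
  have m01 := hM 0 1
  have m11 := hM 1 1
  have m22 := hM 2 2
  have m12 := hM 1 2
  have m00 := hM 0 0
  simp [gm, M, tv, tx, ty, xv, yv] at m03 m01 m11 m22 m12 m00
  have ct : ∀ f : R, D.d 0 T * f = 0 → f = 0 := fun f h =>
    cn _ (by linear_combination D.d 3 Z * h - f * m03)
  have tux : D.d 0 (D.d 1 T) = 0 := D.dz tx 0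
  have tuy : D.d 0 (D.d 2 T) = 0 := D.dz ty 0
  have tuv : D.d 0 (D.d 3 T) = 0 := D.dz tv 0
  have zxv : D.d 1 (D.d 3 Z) = 0 := by
    have e := D.dz m01 3
    simp only [D.add, D.mul, D.c30, D.c31, xv, yv, tv, D.zero] at e
    exact ct _ (by linear_combination e)
  have m02 := hM 0 2
  simp [gm, M, tv, tx, ty, xv, yv] at m02
  have zyv : D.d 2 (D.d 3 Z) = 0 := by
    have e := D.dz m02 3
    simp only [D.add, D.mul, D.c30, D.c32, xv, yv, tv, D.zero] at e
    exact ct _ (by linear_combination e)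
  have lx : D.d 1 l = 0 := by
    rw [← m03, D.mul, D.c10, tux, zxv]
    ring
  have ly : D.d 2 l = 0 := by
    rw [← m03, D.mul, D.c20, tuy, zyv]
    ring
  have e11 := congrArg (D.d 1) m11
  have e12 := congrArg (D.d 2) m11
  have e21 := D.dz m12 1
  simp only [D.add, D.mul, lx, ly, D.c21] at e11 e12 e21
  have u1 : D.d 1 X * D.d 1 (D.d 1 X) + D.d 1 Y * D.d 1 (D.d 1 Y) = 0 :=
    D.two _ (by linear_combination e11)
  have u2 : D.d 2 X * D.d 1 (D.d 1 X) + D.d 2 Y * D.d 1 (D.d 1 Y) = 0 :=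
    D.two _ (by linear_combination 2 * e21 - e12)
  have det : (D.d 1 X * D.d 2 Y - D.d 2 X * D.d 1 Y) * (D.d 1 X * D.d 2 Y - D.d 2 X * D.d 1 Y)
      = l * l := by
    linear_combination (D.d 2 X * D.d 2 X + D.d 2 Y * D.d 2 Y) * m11 + l * m22
      - (D.d 1 X * D.d 2 X + D.d 1 Y * D.d 2 Y) * m12
  have cd : ∀ f : R, (D.d 1 X * D.d 2 Y - D.d 2 X * D.d 1 Y) * f = 0 → f = 0 := fun f h =>
    cn _ (cn _ (by linear_combination (D.d 1 X * D.d 2 Y - D.d 2 X * D.d 1 Y) * h - f * det))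
  have xxx : D.d 1 (D.d 1 X) = 0 := cd _ (by linear_combination D.d 2 Y * u1 - D.d 1 Y * u2)
  have yxx : D.d 1 (D.d 1 Y) = 0 := cd _ (by linear_combination D.d 1 X * u2 - D.d 2 X * u1)
  have zxxx : D.d 1 (D.d 1 (D.d 1 Z)) = 0 := by
    have e := D.dz (D.dz m01 1) 1
    simp only [D.add, D.mul, D.c10, tux, tx, xxx, yxx, D.zero, mul_zero, zero_mul, add_zero,
      zero_add] at e
    exact ct _ (by linear_combination e)
  have e := congrArg (fun f => D.d 1 (D.d 1 (D.d 1 f))) m00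
  simp only [D.add, D.sub, D.mul, D.c10, tux, tx, xxx, yxx, zxxx, lx, D.zero, D.one, D.n3, hH.h1,
    hH.x1, hH.y1, mul_zero, zero_mul, add_zero, zero_add] at e
  exact cn _ (D.six _ (by linear_combination -e))

theorem scale {H x y s r : R} (hH : D.HH H x y)
    (xv : D.d 1 (D.d 3 s) = 0) (xy : D.d 1 (D.d 2 s) = 0)
    (xx : D.d 1 (D.d 1 s) - r = 0) (yy : D.d 2 (D.d 2 s) - r = 0) (uv : D.d 0 (D.d 3 s) - r = 0)
    (ux : 2 * D.d 0 (D.d 1 s) - D.d 1 H * D.d 3 s = 0)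
    (uu : 2 * D.d 0 (D.d 0 s) + D.d 1 H * D.d 1 s + D.d 2 H * D.d 2 s - 2 * (r * H) = 0) :
    D.d 1 s = 0 ∧ D.d 2 s = 0 ∧ D.d 3 s = 0 ∧ D.d 0 (D.d 0 s) = 0 := by
  obtain ⟨h0, h1, h2, h3, x0, x1, x2, x3, y0, y1, y2, y3⟩ := hH
  rw [h1] at ux
  rw [h1, h2] at uu
  have sv : D.d 3 s = 0 := by
    have e5 := D.dz (D.dz ux 1) 1
    have e6 := D.dz (D.dz xx 0) 1
    have e7 := D.dz (D.dz uv 0) 1
    simp only [D.add, D.sub, D.mul, D.neg, D.c10, D.c20, D.c21, D.c30, D.c31, D.n2, D.n3, D.n6, x1,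
      x2, y1, y2, xy, xv, D.zero, D.one, mul_zero, zero_mul, add_zero, zero_add] at e5 e6 e7
    exact D.six _ (by linear_combination 2 * e6 - e5 - 2 * e7)
  have r0 : r = 0 := by
    rw [sv, D.zero] at uv
    linear_combination -uv
  subst r0
  rw [sub_zero] at xx yy
  have sux : D.d 0 (D.d 1 s) = 0 := D.two _ (by rw [sv] at ux; linear_combination ux)
  have sx : D.d 1 s = 0 := by
    have e := D.dz (D.dz uu 1) 1
    simp only [D.add, D.sub, D.mul, D.neg, D.c10, D.n2, D.n3, D.n6, x1, y1, xy, xx, sux, D.zero,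
      D.one, mul_zero, zero_mul, add_zero, zero_add] at e
    exact D.six _ (by linear_combination e)
  have sy : D.d 2 s = 0 := by
    have e := D.dz (D.dz uu 1) 2
    simp only [D.add, D.sub, D.mul, D.neg, D.c10, D.c20, D.c21, D.n2, D.n3, D.n6, x1, y1, x2, y2,
      xy, yy, sx, D.zero, D.one, mul_zero, zero_mul, add_zero, zero_add] at e
    exact D.six _ (by linear_combination -e)
  refine ⟨sx, sy, sv, D.two _ ?_⟩
  rw [sx, sy] at uu
  linear_combination uu

end DR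

end Pool.Agent.H.MP_d87c46_gt
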