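import Pool.Agent.H.MP_d87c46_gt.A

set_option linter.unusedSimpArgs false

namespace Pool.Agent.H.MP_d87c46_gt

open Filter Topology

abbrev V := Fin 4 → ℝ

noncomputable def pd (i : Fin 4) (f : V → ℝ) (x : V) : ℝ := fderiv ℝ f x (Pi.single i 1)

def S (p : V) (f : V → ℝ) : Prop := ContDiffAt ℝ (⊤ : ℕ∞) f p

lemma S.pd {p : V} {f : V → ℝ} (h : S p f) (i : Fin 4) : S p (pd i f) := by
  have h1 : ContDiffAt ℝ (⊤ : ℕ∞) (fderiv ℝ f) p := ContDiffAt.fderiv_right h (by norm_cast)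
  exact h1.clm_apply contDiffAt_const

lemma S.ev {p : V} {f : V → ℝ} (h : S p f) : ∀ᶠ x in 𝓝 p, ContDiffAt ℝ 2 f x :=
  (ContDiffAt.of_le h (by norm_cast)).eventually (by simp)

lemma pd_congr {p : V} {f g : V → ℝ} (i : Fin 4) (h : f =ᶠ[𝓝 p] g) : pd i f =ᶠ[𝓝 p] pd i g := by
  filter_upwards [h.fderiv (𝕜 := ℝ)] with x hx
  simp [pd, hx]

lemma pd_add (m : Fin 4) (f g : V → ℝ) (x : V) (hf : DifferentiableAt ℝ f x)
    (hg : DifferentiableAt ℝ g x) : pd m (fun z => f z + g z) x = pd m f x + pd m g x := by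
  unfold pd
  rw [fderiv_fun_add hf hg]
  rfl

lemma pd_sub (m : Fin 4) (f g : V → ℝ) (x : V) (hf : DifferentiableAt ℝ f x)
    (hg : DifferentiableAt ℝ g x) : pd m (fun z => f z - g z) x = pd m f x - pd m g x := by
  unfold pd
  rw [fderiv_fun_sub hf hg]
  rfl

lemma pd_mul (m : Fin 4) (f g : V → ℝ) (x : V) (hf : DifferentiableAt ℝ f x)
    (hg : DifferentiableAt ℝ g x) :
    pd m (fun z => f z * g z) x = pd m f x * g x + f x * pd m g x := by
  unfold pd
  rw [fderiv_fun_mul hf hg]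
  simp only [add_apply, smul_apply, smul_eq_mul]
  ring

lemma pd_const (m : Fin 4) (c : ℝ) (x : V) : pd m (fun _ => c) x = 0 := by
  simp [pd]

lemma pd_comm (i j : Fin 4) (f : V → ℝ) (x : V) (hf : ContDiffAt ℝ 2 f x) :
    pd i (pd j f) x = pd j (pd i f) x := by
  have h1 : DifferentiableAt ℝ (fderiv ℝ f) x :=
    (hf.fderiv_right (m := 1) (by norm_num)).differentiableAt (by norm_num)
  have h2 := (hf.isSymmSndFDerivAt (by simp)).eq (Pi.single i 1) (Pi.single j 1)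
  have e : ∀ k l : Fin 4, pd k (pd l f) x
      = fderiv ℝ (fderiv ℝ f) x (Pi.single k 1) (Pi.single l 1) := by
    intro k l
    unfold pd
    rw [fderiv_clm_apply h1 (by fun_prop)]
    simp
  rw [e, e, h2]

def Sm (p : V) : Subring (Germ (𝓝 p) ℝ) where
  carrier := {γ | ∃ f : V → ℝ, S p f ∧ γ = ↑f}
  mul_mem' := by
    rintro _ _ ⟨f, hf, rfl⟩ ⟨g, hg, rfl⟩
    exact ⟨fun x => f x * g x, ContDiffAt.mul hf hg, rfl⟩
  one_mem' := ⟨fun _ => 1, contDiffAt_const, rfl⟩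
  add_mem' := by
    rintro _ _ ⟨f, hf, rfl⟩ ⟨g, hg, rfl⟩
    exact ⟨fun x => f x + g x, ContDiffAt.add hf hg, rfl⟩
  zero_mem' := ⟨fun _ => 0, contDiffAt_const, rfl⟩
  neg_mem' := by
    rintro _ ⟨f, hf, rfl⟩
    exact ⟨fun x => -f x, ContDiffAt.neg hf, rfl⟩

def mk {p : V} (f : V → ℝ) (hf : S p f) : Sm p := ⟨↑f, f, hf, rfl⟩

lemma mk_eq {p : V} {f g : V → ℝ} {hf : S p f} {hg : S p g} :
    mk f hf = mk g hg ↔ f =ᶠ[𝓝 p] g := by
  rw [Subtype.ext_iff]
  exact Germ.coe_eq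

lemma ex_mk {p : V} (γ : Sm p) : ∃ f hf, γ = mk f hf := by
  obtain ⟨_, f, hf, rfl⟩ := γ
  exact ⟨f, hf, rfl⟩

lemma mk_add {p : V} (f g : V → ℝ) (hf : S p f) (hg : S p g) :
    mk f hf + mk g hg = mk (fun x => f x + g x) (ContDiffAt.add hf hg) := rfl

lemma mk_sub {p : V} (f g : V → ℝ) (hf : S p f) (hg : S p g) :
    mk f hf - mk g hg = mk (fun x => f x - g x) (ContDiffAt.sub hf hg) := rfl

lemma mk_neg {p : V} (f : V → ℝ) (hf : S p f) :
    -mk f hf = mk (fun x => -f x) (ContDiffAt.neg hf) := rfl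

lemma mk_mul {p : V} (f g : V → ℝ) (hf : S p f) (hg : S p g) :
    mk f hf * mk g hg = mk (fun x => f x * g x) (ContDiffAt.mul hf hg) := rfl

lemma mk_zero {p : V} : (0 : Sm p) = mk (fun _ => 0) contDiffAt_const := rfl

lemma mk_one {p : V} : (1 : Sm p) = mk (fun _ => 1) contDiffAt_const := rfl

lemma mk_two {p : V} : (2 : Sm p) = mk (fun _ => 1 + 1) contDiffAt_const := by
  rw [← one_add_one_eq_two]
  rfl

lemma mk_three {p : V} : (3 : Sm p) = mk (fun _ => 1 + 1 + 1) contDiffAt_const := by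
  rw [show (3 : Sm p) = 1 + 1 + 1 by norm_num]
  rfl

lemma mk_six {p : V} : (6 : Sm p) = mk (fun _ => 1 + 1 + 1 + 1 + 1 + 1) contDiffAt_const := by
  rw [show (6 : Sm p) = 1 + 1 + 1 + 1 + 1 + 1 by norm_num]
  rfl

noncomputable def dg (p : V) (i : Fin 4) (γ : Sm p) : Sm p :=
  ⟨Germ.map' (pd i) (fun _ _ h => pd_congr i h) γ.1, by
    obtain ⟨_, f, hf, rfl⟩ := γ
    exact ⟨pd i f, hf.pd i, rfl⟩⟩

lemma dg_mk {p : V} (i : Fin 4) (f : V → ℝ) (hf : S p f) :
    dg p i (mk f hf) = mk (pd i f) (hf.pd i) := rfl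

noncomputable def DD (p : V) : DR (Sm p) where
  d := dg p
  add := by
    intro i f g
    obtain ⟨f, hf, rfl⟩ := ex_mk f
    obtain ⟨g, hg, rfl⟩ := ex_mk g
    simp only [mk_add, dg_mk, mk_eq]
    filter_upwards [hf.ev, hg.ev] with x h1 h2
    exact pd_add i f g x (h1.differentiableAt (by norm_num)) (h2.differentiableAt (by norm_num))
  mul := by
    intro i f g
    obtain ⟨f, hf, rfl⟩ := ex_mk f
    obtain ⟨g, hg, rfl⟩ := ex_mk g
    simp only [mk_add, mk_mul, dg_mk, mk_eq]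
    filter_upwards [hf.ev, hg.ev] with x h1 h2
    exact pd_mul i f g x (h1.differentiableAt (by norm_num)) (h2.differentiableAt (by norm_num))
  comm := by
    intro i j f
    obtain ⟨f, hf, rfl⟩ := ex_mk f
    simp only [dg_mk, mk_eq]
    filter_upwards [hf.ev] with x h1
    exact pd_comm i j f x h1
  two := by
    intro f
    obtain ⟨f, hf, rfl⟩ := ex_mk f
    simp only [mk_two, mk_mul, mk_zero, mk_eq]
    intro h
    filter_upwards [h] with x hx
    linarith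
  three := by
    intro f
    obtain ⟨f, hf, rfl⟩ := ex_mk f
    simp only [mk_three, mk_mul, mk_zero, mk_eq]
    intro h
    filter_upwards [h] with x hx
    linarith
  sq := by
    intro f g
    obtain ⟨f, hf, rfl⟩ := ex_mk f
    obtain ⟨g, hg, rfl⟩ := ex_mk g
    simp only [mk_add, mk_mul, mk_zero, mk_eq]
    intro h
    filter_upwards [h] with x hx
    nlinarith [mul_self_nonneg (f x), mul_self_nonneg (g x), mul_self_eq_zero (a := f x)]

lemma DD_d (p : V) : (DD p).d = dg p := rfl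

def dl (i j : Fin 4) : ℝ := if i = j then 1 else 0

lemma pd_co (m j : Fin 4) (x : V) : pd m (fun z : V => z j) x = dl m j := by
  have h1 : HasFDerivAt (fun z : V => z j)
      (ContinuousLinearMap.proj (R := ℝ) (φ := fun _ : Fin 4 => ℝ) j) x := hasFDerivAt_apply j x
  unfold pd
  rw [h1.fderiv]
  simp [dl, Pi.single_apply, eq_comm]

def Hf (z : V) : ℝ := z 1 * z 1 * z 1 - 3 * (z 1 * (z 2 * z 2))

@[fun_prop] lemma cd_H {k : WithTop ℕ∞} : ContDiff ℝ k Hf := by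
  unfold Hf
  fun_prop

@[fun_prop] lemma df_H (x : V) : DifferentiableAt ℝ Hf x := by
  unfold Hf
  fun_prop

lemma pd_H (m : Fin 4) (x : V) :
    pd m Hf x = dl m 1 * (3 * (x 1 * x 1) - 3 * (x 2 * x 2)) - dl m 2 * (6 * (x 1 * x 2)) := by
  unfold Hf
  rw [pd_sub _ _ _ _ (by fun_prop) (by fun_prop), pd_mul _ _ _ _ (by fun_prop) (by fun_prop),
    pd_mul _ _ _ _ (by fun_prop) (by fun_prop), pd_mul _ _ _ _ (by fun_prop) (by fun_prop),
    pd_mul _ _ _ _ (by fun_prop) (by fun_prop), pd_mul _ _ _ _ (by fun_prop) (by fun_prop)]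
  simp only [pd_co, pd_const]
  ring

lemma sH (p : V) : S p Hf := cd_H.contDiffAt

lemma sco (p : V) (j : Fin 4) : S p (fun z => z j) := (contDiff_apply ℝ ℝ j).contDiffAt

lemma hh (p : V) : (DD p).HH (mk Hf (sH p)) (mk _ (sco p 1)) (mk _ (sco p 2)) := by
  constructor <;>
    simp only [DD_d, dg_mk, mk_add, mk_mul, mk_sub, mk_neg, mk_zero, mk_one, mk_three, mk_six,
      mk_eq] <;>
    refine Eventually.of_forall fun x => ?_ <;>
    simp only [pd_H, pd_co, dl, Fin.isValue, Fin.reduceEq, ↓reduceIte] <;> ring_nf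

end Pool.Agent.H.MP_d87c46_gt
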