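import Pool.Agent.H.MP_d87c46_gt.B

set_option linter.unusedSimpArgs false

namespace Pool.Agent.H.MP_d87c46_gt

open Filter Topology

abbrev Met := V → Matrix (Fin 4) (Fin 4) ℝ

noncomputable def chr (g : Met) (x : V) (a i j : Fin 4) : ℝ :=
  ∑ l, (g x)⁻¹ a l *
    (pd i (fun z => g z j l) x + pd j (fun z => g z i l) x - pd l (fun z => g z i j) x) / 2

noncomputable def riem (g : Met) (x : V) (a b c d : Fin 4) : ℝ :=
  pd c (fun z => chr g z a d b) x - pd d (fun z => chr g z a c b) x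
    + ∑ l, (chr g x a c l * chr g x l d b - chr g x a d l * chr g x l c b)

noncomputable def ric (g : Met) (x : V) (b d : Fin 4) : ℝ := ∑ a, riem g x a b a d

noncomputable def scal (g : Met) (x : V) : ℝ := ∑ b, ∑ d, (g x)⁻¹ b d * ric g x b d

noncomputable def sch (g : Met) (x : V) (a b : Fin 4) : ℝ :=
  (ric g x a b - scal g x / 6 * g x a b) / 2

noncomputable def weyl (g : Met) (x : V) (a b c d : Fin 4) : ℝ :=
  ∑ l, g x a l * riem g x l b c d
    - (g x a c * sch g x b d - g x a d * sch g x b c + g x b d * sch g x a c - g x b c * sch g x a d)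

noncomputable def ein (g : Met) (σ : V → ℝ) (x : V) (a b : Fin 4) : ℝ :=
  pd a (pd b σ) x - ∑ l, chr g x l a b * pd l σ x + sch g x a b * σ x

def AE (g : Met) (σ : V → ℝ) : Prop :=
  ∀ x a b, ein g σ x a b - (∑ c, ∑ d, (g x)⁻¹ c d * ein g σ x c d) / 4 * g x a b = 0

noncomputable def gpp : Met := fun w =>
  Real.exp (-√2 * w 0) • !![w 1 ^ 2, 0, 0, 1; 0, 1, 0, 0; 0, 0, 1, 0; 1, 0, 0, 0]

noncomputable def G : Met := fun x => DR.gm (Hf x)

lemma four (a : Fin 4) : a = 0 ∨ a = 1 ∨ a = 2 ∨ a = 3 := by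
  revert a
  decide

lemma G_eq (x : V) (i j : Fin 4) : G x i j = dl i 0 * dl j 0 * Hf x
    + (dl i 0 * dl j 3 + dl i 3 * dl j 0 + dl i 1 * dl j 1 + dl i 2 * dl j 2) := by
  fin_cases i <;> fin_cases j <;> simp [G, DR.gm, dl]

lemma G_inv (x : V) : (G x)⁻¹ = DR.gi (Hf x) := Matrix.inv_eq_right_inv (DR.gm_gi _)

def H1 (x : V) : ℝ := 3 * (x 1 * x 1) - 3 * (x 2 * x 2)

def H2 (x : V) : ℝ := -6 * (x 1 * x 2)

lemma pd_G (m i j : Fin 4) (x : V) : pd m (fun z => G z i j) x =
    dl i 0 * dl j 0 * (dl m 1 * H1 x + dl m 2 * H2 x) := by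
  simp only [G_eq]
  rw [pd_add _ _ _ _ (by fun_prop) (by fun_prop), pd_const,
    pd_mul _ _ _ _ (by fun_prop) (by fun_prop), pd_const, pd_H, H1, H2]
  ring

noncomputable def Gm (x : V) (a i j : Fin 4) : ℝ :=
  (dl a 3 * (dl i 0 * dl j 1 + dl i 1 * dl j 0) - dl a 1 * dl i 0 * dl j 0) / 2 * H1 x
    + (dl a 3 * (dl i 0 * dl j 2 + dl i 2 * dl j 0) - dl a 2 * dl i 0 * dl j 0) / 2 * H2 x

lemma chr_G (x : V) (a i j : Fin 4) : chr G x a i j = Gm x a i j := by
  unfold chr
  simp only [pd_G, G_inv, Fin.sum_univ_four]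
  fin_cases a <;> fin_cases i <;> fin_cases j <;> simp [Gm, dl, DR.gi] <;> ring

lemma pd_H1 (m : Fin 4) (x : V) : pd m H1 x = 6 * (dl m 1 * x 1 - dl m 2 * x 2) := by
  unfold H1
  rw [pd_sub _ _ _ _ (by fun_prop) (by fun_prop), pd_mul _ _ _ _ (by fun_prop) (by fun_prop),
    pd_mul _ _ _ _ (by fun_prop) (by fun_prop), pd_mul _ _ _ _ (by fun_prop) (by fun_prop),
    pd_mul _ _ _ _ (by fun_prop) (by fun_prop)]
  simp only [pd_co, pd_const]
  ring

lemma pd_H2 (m : Fin 4) (x : V) : pd m H2 x = -6 * (dl m 1 * x 2 + dl m 2 * x 1) := by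
  unfold H2
  rw [pd_mul _ _ _ _ (by fun_prop) (by fun_prop), pd_mul _ _ _ _ (by fun_prop) (by fun_prop)]
  simp only [pd_co, pd_const]
  ring

lemma pd_Gm (m a i j : Fin 4) (x : V) : pd m (fun z => Gm z a i j) x =
    (dl a 3 * (dl i 0 * dl j 1 + dl i 1 * dl j 0) - dl a 1 * dl i 0 * dl j 0) / 2
      * (6 * (dl m 1 * x 1 - dl m 2 * x 2))
    + (dl a 3 * (dl i 0 * dl j 2 + dl i 2 * dl j 0) - dl a 2 * dl i 0 * dl j 0) / 2
      * (-6 * (dl m 1 * x 2 + dl m 2 * x 1)) := by
  have d1 : DifferentiableAt ℝ H1 x := by unfold H1; fun_prop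
  have d2 : DifferentiableAt ℝ H2 x := by unfold H2; fun_prop
  unfold Gm
  rw [pd_add _ _ _ _ (by fun_prop) (by fun_prop), pd_mul _ _ _ _ (by fun_prop) d1,
    pd_mul _ _ _ _ (by fun_prop) d2, pd_H1, pd_H2]
  simp only [pd_const]
  ring

lemma ric_G (x : V) (b d : Fin 4) : ric G x b d = 0 := by
  unfold ric riem
  simp only [chr_G, pd_Gm, Fin.sum_univ_four]
  rcases four b with rfl | rfl | rfl | rfl <;> rcases four d with rfl | rfl | rfl | rfl <;>
    simp only [Gm, dl, Fin.isValue, Fin.reduceEq, ↓reduceIte] <;> ring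

lemma sch_G (x : V) (b d : Fin 4) : sch G x b d = 0 := by
  simp [sch, scal, ric_G]

lemma weyl_G : weyl G ![0, 1, 0, 0] 1 0 1 0 ≠ 0 := by
  unfold weyl riem
  simp only [sch_G, chr_G, pd_Gm, Fin.sum_univ_four, G_eq]
  simp [Gm, dl]

lemma lor_G (x : V) : ∃ A : Matrix (Fin 4) (Fin 4) ℝ,
    A.transpose * G x * A = Matrix.diagonal ![-1, 1, 1, 1] := by
  refine ⟨!![1, 0, 0, 1; 0, 1, 0, 0; 0, 0, 1, 0; (-1 - Hf x) / 2, 0, 0, (1 - Hf x) / 2], ?_⟩
  ext i j
  fin_cases i <;> fin_cases j <;> simp [G, DR.gm, Matrix.mul_apply, Fin.sum_univ_four] <;> ring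

lemma ein_G (σ : V → ℝ) (x : V) (a b : Fin 4) :
    ein G σ x a b = pd a (pd b σ) x - ∑ l, Gm x l a b * pd l σ x := by
  simp [ein, sch_G, chr_G]

lemma const_of (f : V → ℝ) (hf : Differentiable ℝ f) (h : ∀ i x, pd i f x = 0) (x : V) :
    f x = f 0 := by
  refine is_const_of_fderiv_eq_zero hf (fun z => ?_) x 0
  ext v
  have e : v = ∑ i, v i • (Pi.single i (1 : ℝ) : V) := by
    ext j
    simp [Finset.sum_apply, Pi.single_apply]
  rw [e, map_sum]
  simp only [map_smul]
  exact Finset.sum_eq_zero fun i _ => by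
    have := h i z
    unfold pd at this
    rw [this, smul_zero]

lemma ae_G (σ : V → ℝ) (hσ : ContDiff ℝ (⊤ : ℕ∞) σ) :
    AE G σ ↔ ∃ a b : ℝ, ∀ x, σ x = a + b * x 0 := by
  constructor
  · intro h
    have hs : ∀ p, S p σ := fun p => hσ.contDiffAt
    have hc : ∀ i j x, pd i (pd j σ) x = pd j (pd i σ) x := fun i j x =>
      pd_comm i j σ x (hs x).ev.self_of_nhds
    have key : ∀ p, pd 1 σ p = 0 ∧ pd 2 σ p = 0 ∧ pd 3 σ p = 0 ∧ pd 0 (pd 0 σ) p = 0 := by
      intro p
      have := (DD p).scale (s := mk σ (hs p)) (r := mk _ (((hs p).pd 3).pd 0)) (hh p) ?_ ?_ ?_ ?_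
        ?_ ?_ ?_
      · simp only [DD_d, dg_mk, mk_zero, mk_eq] at this
        exact ⟨this.1.self_of_nhds, this.2.1.self_of_nhds, this.2.2.1.self_of_nhds,
          this.2.2.2.self_of_nhds⟩
      all_goals
        simp only [DD_d, dg_mk, mk_add, mk_mul, mk_sub, mk_neg, mk_zero, mk_one, mk_two, mk_eq]
        refine Eventually.of_forall fun x => ?_
        have e13 := h x 1 3
        have e12 := h x 1 2
        have e11 := h x 1 1
        have e22 := h x 2 2
        have e03 := h x 0 3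
        have e01 := h x 0 1
        have e00 := h x 0 0
        simp only [ein_G] at e13 e12 e11 e22 e03 e01 e00
        generalize (∑ c, ∑ d, (G x)⁻¹ c d * (pd c (pd d σ) x - ∑ l, Gm x l c d * pd l σ x)) / 4
          = t at *
        simp [G_eq, Gm, dl, Fin.sum_univ_four, H1, H2] at e13 e12 e11 e22 e03 e01 e00
        simp only [pd_H, dl, Fin.isValue, Fin.reduceEq, ↓reduceIte]
      · exact e13
      · exact e12
      · linear_combination e11 - e03
      · linear_combination e22 - e03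
      · ring
      · linear_combination 2 * e01
      · linear_combination 2 * e00 - 2 * Hf x * e03
    have hd : Differentiable ℝ σ := hσ.differentiable (by simp)
    have hd0 : Differentiable ℝ (pd 0 σ) := fun x =>
      ((hs x).pd 0).differentiableAt (by simp)
    have c0 : ∀ x, pd 0 σ x = pd 0 σ 0 := by
      refine const_of _ hd0 fun i x => ?_
      rcases four i with rfl | rfl | rfl | rfl
      · exact (key x).2.2.2
      · rw [hc, show pd 1 σ = fun _ => 0 from funext fun z => (key z).1, pd_const]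
      · rw [hc, show pd 2 σ = fun _ => 0 from funext fun z => (key z).2.1, pd_const]
      · rw [hc, show pd 3 σ = fun _ => 0 from funext fun z => (key z).2.2.1, pd_const]
    refine ⟨σ 0, pd 0 σ 0, fun x => ?_⟩
    have := const_of (fun z => σ z - pd 0 σ 0 * z 0) (by fun_prop) (fun i z => by
      rw [pd_sub _ _ _ _ (hd z) (by fun_prop), pd_mul _ _ _ _ (by fun_prop) (by fun_prop), pd_const,
        pd_co]
      rcases four i with rfl | rfl | rfl | rfl <;> simp [dl, c0 z, key z]) x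
    simp at this
    linarith
  · rintro ⟨a, b, h⟩
    have e : ∀ i, pd i σ = fun _ => b * dl i 0 := by
      intro i
      funext z
      rw [show σ = fun x => a + b * x 0 from funext h, pd_add _ _ _ _ (by fun_prop) (by fun_prop),
        pd_mul _ _ _ _ (by fun_prop) (by fun_prop), pd_const, pd_const, pd_co]
      ring
    have e2 : ∀ x c d, ein G σ x c d = 0 := by
      intro x c d
      rw [ein_G]
      simp only [e, pd_const, Fin.sum_univ_four]
      simp [Gm, dl]
    intro x c d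
    simp [e2]

lemma noiso_G (p : V) (U : Set V) (hU : IsOpen U) (hp : p ∈ U) (F : V → V) (φ : V → ℝ)
    (hF : ContDiffOn ℝ (⊤ : ℕ∞) F U) (hφ : ContDiffOn ℝ (⊤ : ℕ∞) φ U) (pos : ∀ x ∈ U, 0 < φ x)
    (h : ∀ x ∈ U, ∀ a b, ∑ i, ∑ j, gpp (F x) i j * pd a (fun z => F z i) x * pd b (fun z => F z j) x
      = φ x ^ 2 * G x a b) : False := by
  have hn := hU.mem_nhds hp
  have sF : ∀ i, S p (fun z => F z i) := fun i => contDiffAt_pi.1 (hF.contDiffAt hn) i
  have sφ : S p φ := hφ.contDiffAt hn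
  have sl : S p (fun z => φ z ^ 2 * Real.exp (√2 * F z 0)) :=
    ContDiffAt.mul (ContDiffAt.pow sφ 2) (ContDiffAt.exp (ContDiffAt.mul contDiffAt_const (sF 0)))
  have sn : S p (fun z => (φ z ^ 2 * Real.exp (√2 * F z 0))⁻¹) :=
    ContDiffAt.inv sl (mul_pos (pow_pos (pos p hp) 2) (Real.exp_pos _)).ne'
  have := (DD p).noiso (T := mk _ (sF 0)) (X := mk _ (sF 1)) (Y := mk _ (sF 2)) (Z := mk _ (sF 3))
    (l := mk _ sl) (n := mk _ sn) (hh p) ?_ ?_
  · rw [mk_one, mk_zero, mk_eq] at this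
    exact one_ne_zero this.self_of_nhds
  · rw [mk_mul, mk_one, mk_eq]
    filter_upwards [hn] with x hx
    exact mul_inv_cancel₀ (mul_pos (pow_pos (pos x hx) 2) (Real.exp_pos _)).ne'
  · intro a b
    have e : DR.gm (mk Hf (sH p)) a b = mk (fun z => G z a b) (by
        simp only [G_eq]
        exact ContDiffAt.add (ContDiffAt.mul contDiffAt_const (sH p)) contDiffAt_const) := by
      fin_cases a <;> fin_cases b <;> rfl
    rw [e]
    simp only [DR.M, DD_d, dg_mk, mk_add, mk_mul, mk_eq]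
    filter_upwards [hn] with x hx
    have h1 := h x hx a b
    have h2 : Real.exp (-√2 * F x 0) * Real.exp (√2 * F x 0) = 1 := by
      rw [← Real.exp_add]
      simp
    simp [gpp, Fin.sum_univ_four] at h1
    simp only [neg_mul] at h2
    linear_combination Real.exp (√2 * F x 0) * h1 - (F x 1 * F x 1 * (pd a (fun z => F z 0) x *
      pd b (fun z => F z 0) x) + pd a (fun z => F z 0) x * pd b (fun z => F z 3) x
      + pd a (fun z => F z 3) x * pd b (fun z => F z 0) x
      + pd a (fun z => F z 1) x * pd b (fun z => F z 1) x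
      + pd a (fun z => F z 2) x * pd b (fun z => F z 2) x) * h2

end Pool.Agent.H.MP_d87c46_gt
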